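import Mathlib
import Pool.Agent.Helper20.HK.Defs
import Pool.Agent.Helper20.HK.Series

set_option autoImplicit false

namespace Pool.Agent.Results.MP_be5c27_co.DiagonalHankel

open Pool.Agent.Helper20.HK

open Classical in
/-- The diagonal Hankel determinants of the inverse Thue-Morse series are the indicator
function of the Moser-de Bruijn set. -/
theorem result :
    ∃ G : PowerSeries (ZMod 2),
      PowerSeries.constantCoeff G = 0 ∧
      PowerSeries.subst G tmSeries = (PowerSeries.X : PowerSeries (ZMod 2)) ∧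
      PowerSeries.subst tmSeries G = (PowerSeries.X : PowerSeries (ZMod 2)) ∧
      (∀ G' : PowerSeries (ZMod 2), PowerSeries.constantCoeff G' = 0 →
        PowerSeries.subst G' tmSeries = (PowerSeries.X : PowerSeries (ZMod 2)) → G' = G) ∧
      ∀ n : ℕ, 1 ≤ n →
        Matrix.det (Matrix.of fun i j : Fin n =>
          (((PowerSeries.coeff (n + ((i : ℕ) + 1) + ((j : ℕ) + 1) - 1) G).val : ℕ) : ℤ)) =
        if ∃ S : Finset ℕ, n = ∑ k ∈ S, 4 ^ k then 1 else 0 := by
  refine ⟨gSeries, gSeries_const, right_inverse, left_inverse,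
    fun G' h1 h2 => inverse_unique h1 h2, ?_⟩
  intro n _
  have h1 : (Matrix.of fun i j : Fin n =>
      (((PowerSeries.coeff (n + ((i : ℕ) + 1) + ((j : ℕ) + 1) - 1) gSeries).val : ℕ) : ℤ)) =
      Matrix.of fun i j : Fin n => dd (n + 2 + i + j) := by
    ext i j
    simp only [Matrix.of_apply]
    rw [gSeries_coeff_val (by omega)]
    congr 1
    omega
  rw [h1]
  have h2 : Matrix.det (Matrix.of fun i j : Fin n => dd (n + 2 + i + j)) = mu n := (P_all n).D2
  rw [h2]
  split_ifs with h
  · exact (mu_eq_one_iff n).mpr h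
  · rcases mu_zero_or_one n with h3 | h3
    · exact h3
    · exact absurd ((mu_eq_one_iff n).mp h3) h

end Pool.Agent.Results.MP_be5c27_co.DiagonalHankel
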